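import Mathlib

set_option autoImplicit false

namespace Pool.Agent.Results.MP_d086ed_co.VisualHullNotUnion

/-- Euclidean space of dimension `n`. -/
abbrev E (n : ℕ) := EuclideanSpace ℝ (Fin n)

/-- `A` and `B` have the same image under every orthogonal projection onto a one-dimensional
linear subspace. -/
def PEquiv {n : ℕ} (A B : Set (E n)) : Prop :=
  ∀ v : E n, v ≠ 0 →
    (Submodule.span ℝ {v}).starProjection '' A = (Submodule.span ℝ {v}).starProjection '' B

/-- The visual hull: the union of all sets equivalent to `S`. -/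
def visualHull {n : ℕ} (S : Set (E n)) : Set (E n) := ⋃₀ {B | PEquiv B S}

lemma proj_eq_iff {n : ℕ} (v : E n) (hv : v ≠ 0) (x y : E n) :
    (Submodule.span ℝ {v}).starProjection x = (Submodule.span ℝ {v}).starProjection y ↔
      inner ℝ v x = inner ℝ v y := by
  rw [Submodule.starProjection_singleton, Submodule.starProjection_singleton]
  have hn : ‖v‖ ^ 2 ≠ 0 := pow_ne_zero 2 (norm_ne_zero_iff.mpr hv)
  constructor
  · intro h
    have h1 := smul_left_injective ℝ hv h
    exact (div_left_inj' (by exact_mod_cast hn)).mp h1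
  · intro h; rw [h]

/-- The visual hull consists of the points all of whose hyperplanes meet `S`. -/
lemma mem_visualHull_iff {n : ℕ} (S : Set (E n)) (x : E n) :
    x ∈ visualHull S ↔ ∀ v : E n, v ≠ 0 → ∃ s ∈ S, inner ℝ v s = inner ℝ v x := by
  constructor
  · rintro ⟨B, hB, hx⟩ v hv
    have h1 : (Submodule.span ℝ {v}).starProjection x ∈ (Submodule.span ℝ {v}).starProjection '' B :=
      ⟨x, hx, rfl⟩
    rw [hB v hv] at h1
    obtain ⟨s, hs, hsx⟩ := h1
    exact ⟨s, hs, (proj_eq_iff v hv s x).mp hsx⟩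
  · intro h
    refine ⟨insert x S, fun v hv => ?_, Set.mem_insert x S⟩
    obtain ⟨s, hs, hsx⟩ := h v hv
    rw [Set.image_insert_eq]
    refine Set.insert_eq_of_mem ⟨s, hs, (proj_eq_iff v hv s x).mpr hsx⟩

/-- first endpoints -/
noncomputable def a : ℕ → ℝ × ℝ × ℝ
  | 0 => (0, 0, -1)
  | 1 => (1, 1, 2)
  | 2 => (2, -1, 0)
  | (i + 3) => (((i : ℝ) + 6) ^ 2 + ((i : ℝ) + 6), -((i : ℝ) + 6) ^ 2, ((i : ℝ) + 6) ^ 2)

/-- second endpoints -/
noncomputable def b : ℕ → ℝ × ℝ × ℝ
  | 0 => (0, -2, 1)
  | 1 => (-1, 0, 0)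
  | 2 => (0, 1, 0)
  | (i + 3) => (((i : ℝ) + 6) ^ 2 + ((i : ℝ) + 6), -((i : ℝ) + 6) ^ 2, ((i : ℝ) + 6) ^ 2)

/-- coefficients of the separating forms -/
noncomputable def co : ℕ → ℝ × ℝ × ℝ
  | 0 => (-1, -3, -3)
  | 1 => (-2, 1, 2)
  | 2 => (3, 3, -2)
  | (i + 3) => (2 * ((i : ℝ) + 6), 2 * ((i : ℝ) + 6), -1)

/-- levels of the separating planes -/
noncomputable def lev : ℕ → ℝ
  | 0 => 3 / 2
  | 1 => 3 / 2
  | 2 => 9 / 4
  | (i + 3) => ((i : ℝ) + 6) ^ 2 - 1 / 2

/-- the separating forms on `ℝ³` -/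
noncomputable def g (i : ℕ) (x : ℝ × ℝ × ℝ) : ℝ :=
  (co i).1 * x.1 + (co i).2.1 * x.2.1 + (co i).2.2 * x.2.2

lemma lev_pos (i : ℕ) : 0 < lev i := by
  match i with
  | 0 => norm_num [lev]
  | 1 => norm_num [lev]
  | 2 => norm_num [lev]
  | (i + 3) =>
    simp only [lev]
    have : (0 : ℝ) ≤ i := Nat.cast_nonneg i
    nlinarith

lemma g_own_a (i : ℕ) : lev i < g i (a i) := by
  match i with
  | 0 => norm_num [lev, g, co, a]
  | 1 => norm_num [lev, g, co, a]
  | 2 => norm_num [lev, g, co, a]
  | (i + 3) =>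
    simp only [lev, g, co, a]
    nlinarith

lemma g_own_b (i : ℕ) : lev i < g i (b i) := by
  match i with
  | 0 => norm_num [lev, g, co, b]
  | 1 => norm_num [lev, g, co, b]
  | 2 => norm_num [lev, g, co, b]
  | (i + 3) =>
    simp only [lev, g, co, b]
    nlinarith

lemma sq_ge_one (i j : ℕ) (h : i ≠ j) : (1 : ℝ) ≤ ((i : ℝ) - j) ^ 2 := by
  have h1 : ((i : ℤ) - j) ≠ 0 := by
    intro h0
    exact h (by omega)
  have h2 : 0 < ((i : ℤ) - j) ^ 2 := by positivity
  have h3 : (1 : ℤ) ≤ ((i : ℤ) - j) ^ 2 := h2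
  exact_mod_cast h3

lemma g_other_a (i j : ℕ) (hij : i ≠ j) : g i (a j) < lev i := by
  match i, j with
  | 0, 0 => exact absurd rfl hij
  | 1, 1 => exact absurd rfl hij
  | 2, 2 => exact absurd rfl hij
  | 0, 1 => norm_num [lev, g, co, a]
  | 0, 2 => norm_num [lev, g, co, a]
  | 1, 0 => norm_num [lev, g, co, a]
  | 1, 2 => norm_num [lev, g, co, a]
  | 2, 0 => norm_num [lev, g, co, a]
  | 2, 1 => norm_num [lev, g, co, a]
  | 0, (j + 3) =>
    simp only [lev, g, co, a]
    have : (0 : ℝ) ≤ j := Nat.cast_nonneg j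
    nlinarith
  | 1, (j + 3) =>
    simp only [lev, g, co, a]
    have : (0 : ℝ) ≤ j := Nat.cast_nonneg j
    nlinarith
  | 2, (j + 3) =>
    simp only [lev, g, co, a]
    have : (0 : ℝ) ≤ j := Nat.cast_nonneg j
    nlinarith
  | (i + 3), 0 =>
    simp only [lev, g, co, a]
    have : (0 : ℝ) ≤ i := Nat.cast_nonneg i
    nlinarith
  | (i + 3), 1 =>
    simp only [lev, g, co, a]
    have : (0 : ℝ) ≤ i := Nat.cast_nonneg i
    nlinarith
  | (i + 3), 2 =>
    simp only [lev, g, co, a]
    have : (0 : ℝ) ≤ i := Nat.cast_nonneg i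
    nlinarith
  | (i + 3), (j + 3) =>
    simp only [lev, g, co, a]
    have h := sq_ge_one i j (by omega)
    nlinarith

lemma g_other_b (i j : ℕ) (hij : i ≠ j) : g i (b j) < lev i := by
  match i, j with
  | 0, 0 => exact absurd rfl hij
  | 1, 1 => exact absurd rfl hij
  | 2, 2 => exact absurd rfl hij
  | 0, 1 => norm_num [lev, g, co, b]
  | 0, 2 => norm_num [lev, g, co, b]
  | 1, 0 => norm_num [lev, g, co, b]
  | 1, 2 => norm_num [lev, g, co, b]
  | 2, 0 => norm_num [lev, g, co, b]
  | 2, 1 => norm_num [lev, g, co, b]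
  | 0, (j + 3) =>
    simp only [lev, g, co, b]
    have : (0 : ℝ) ≤ j := Nat.cast_nonneg j
    nlinarith
  | 1, (j + 3) =>
    simp only [lev, g, co, b]
    have : (0 : ℝ) ≤ j := Nat.cast_nonneg j
    nlinarith
  | 2, (j + 3) =>
    simp only [lev, g, co, b]
    have : (0 : ℝ) ≤ j := Nat.cast_nonneg j
    nlinarith
  | (i + 3), 0 =>
    simp only [lev, g, co, b]
    have : (0 : ℝ) ≤ i := Nat.cast_nonneg i
    nlinarith
  | (i + 3), 1 =>
    simp only [lev, g, co, b]
    have : (0 : ℝ) ≤ i := Nat.cast_nonneg i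
    nlinarith
  | (i + 3), 2 =>
    simp only [lev, g, co, b]
    have : (0 : ℝ) ≤ i := Nat.cast_nonneg i
    nlinarith
  | (i + 3), (j + 3) =>
    simp only [lev, g, co, b]
    have h := sq_ge_one i j (by omega)
    nlinarith

/-- the segments in `ℝ³` -/
def K (i : ℕ) : Set (ℝ × ℝ × ℝ) :=
  {x | ∃ t : ℝ, 0 ≤ t ∧ t ≤ 1 ∧ x = (1 - t) • a i + t • b i}

lemma g_comb (i : ℕ) (t : ℝ) (x y : ℝ × ℝ × ℝ) :
    g i ((1 - t) • x + t • y) = (1 - t) * g i x + t * g i y := by
  simp only [g, Prod.fst_add, Prod.smul_fst, Prod.snd_add, Prod.smul_snd, smul_eq_mul]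
  ring

lemma g_K_own (i : ℕ) (x : ℝ × ℝ × ℝ) (hx : x ∈ K i) : lev i < g i x := by
  obtain ⟨t, h0, h1, rfl⟩ := hx
  rw [g_comb]
  have := g_own_a i
  have := g_own_b i
  nlinarith [mul_nonneg h0 (sub_nonneg.mpr (g_own_b i).le),
    mul_nonneg (sub_nonneg.mpr h1) (sub_nonneg.mpr (g_own_a i).le)]

lemma g_K_other (i j : ℕ) (hij : i ≠ j) (x : ℝ × ℝ × ℝ) (hx : x ∈ K j) : g i x < lev i := by
  obtain ⟨t, h0, h1, rfl⟩ := hx
  rw [g_comb]
  have := g_other_a i j hij
  have := g_other_b i j hij
  nlinarith [mul_nonneg h0 (sub_nonneg.mpr (g_other_b i j hij).le),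
    mul_nonneg (sub_nonneg.mpr h1) (sub_nonneg.mpr (g_other_a i j hij).le)]

lemma K_convex (i : ℕ) : Convex ℝ (K i) := by
  intro x hx y hy s t hs ht hst
  obtain ⟨u, hu0, hu1, rfl⟩ := hx
  obtain ⟨w, hw0, hw1, rfl⟩ := hy
  refine ⟨s * u + t * w, by positivity, ?_, ?_⟩
  · nlinarith
  · have : s = 1 - t := by linarith
    subst this
    module

/-- Every plane through the origin meets one of the three segments `K 0, K 1, K 2`. -/
lemma origin_hit (p q r : ℝ) : ∃ i : ℕ, i < 3 ∧ ∃ x ∈ K i, p * x.1 + q * x.2.1 + r * x.2.2 = 0 := by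
  -- a sign change on a segment gives a zero
  have zero : ∀ i : ℕ, i < 3 →
      (p * (a i).1 + q * (a i).2.1 + r * (a i).2.2) * (p * (b i).1 + q * (b i).2.1 + r * (b i).2.2) ≤ 0 →
      ∃ i : ℕ, i < 3 ∧ ∃ x ∈ K i, p * x.1 + q * x.2.1 + r * x.2.2 = 0 := by
    intro i hi h
    set A := p * (a i).1 + q * (a i).2.1 + r * (a i).2.2 with hA
    set B := p * (b i).1 + q * (b i).2.1 + r * (b i).2.2 with hB
    have hval : ∀ t : ℝ, p * ((1 - t) • a i + t • b i).1 + q * ((1 - t) • a i + t • b i).2.1
        + r * ((1 - t) • a i + t • b i).2.2 = (1 - t) * A + t * B := by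
      intro t
      simp only [hA, hB, Prod.fst_add, Prod.smul_fst, Prod.snd_add, Prod.smul_snd, smul_eq_mul]
      ring
    by_cases hA0 : A = 0
    · refine ⟨i, hi, (1 - 0 : ℝ) • a i + (0 : ℝ) • b i, ⟨0, le_rfl, zero_le_one, rfl⟩, ?_⟩
      rw [hval, hA0]; ring
    · have hAB : A - B ≠ 0 := by
        intro h0
        have : A = B := by linarith
        rw [← this] at h
        have := mul_self_pos.mpr hA0
        linarith
      refine ⟨i, hi, (1 - A / (A - B)) • a i + (A / (A - B)) • b i, ⟨A / (A - B), ?_, ?_, rfl⟩, ?_⟩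
      · rw [div_nonneg_iff]
        rcases lt_or_gt_of_ne hA0 with h1 | h1
        · right
          refine ⟨h1.le, ?_⟩
          have : 0 ≤ B := by
            by_contra hc
            push Not at hc
            have := mul_pos_of_neg_of_neg h1 hc
            linarith
          linarith
        · left
          refine ⟨h1.le, ?_⟩
          have : B ≤ 0 := by
            by_contra hc
            push Not at hc
            have := mul_pos h1 hc
            linarith
          linarith
      · rcases lt_or_gt_of_ne hA0 with h1 | h1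
        · have hB0 : 0 ≤ B := by
            by_contra hc
            push Not at hc
            have := mul_pos_of_neg_of_neg h1 hc
            linarith
          rw [div_le_one_of_neg (by linarith)]
          linarith
        · have hB0 : B ≤ 0 := by
            by_contra hc
            push Not at hc
            have := mul_pos h1 hc
            linarith
          rw [div_le_one (by linarith)]
          linarith
      · rw [hval]
        field_simp
        ring
  by_contra hcon
  have z0 := not_le.mp (fun h => hcon (zero 0 (by norm_num) h))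
  have z1 := not_le.mp (fun h => hcon (zero 1 (by norm_num) h))
  have z2 := not_le.mp (fun h => hcon (zero 2 (by norm_num) h))
  simp only [a, b] at z0 z1 z2
  rcases pos_and_pos_or_neg_and_neg_of_mul_pos z0 with ⟨x1, x2⟩ | ⟨x1, x2⟩ <;>
  rcases pos_and_pos_or_neg_and_neg_of_mul_pos z1 with ⟨y1, y2⟩ | ⟨y1, y2⟩ <;>
  rcases pos_and_pos_or_neg_and_neg_of_mul_pos z2 with ⟨w1, w2⟩ | ⟨w1, w2⟩ <;>
  linarith

section
variable {k : ℕ}

/-- the first three coordinates -/
def pr : E (k + 3) →ₗ[ℝ] (ℝ × ℝ × ℝ) :=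
  { toFun := fun x => (x 0, x 1, x 2)
    map_add' := by intro x y; simp
    map_smul' := by intro r x; simp }

lemma pr_apply (x : E (k + 3)) : pr x = (x 0, x 1, x 2) := rfl

/-- the sets -/
def A (i : Fin (k + 3)) : Set (E (k + 3)) := pr ⁻¹' K i

/-- the vector of the form -/
noncomputable def vec (p q r : ℝ) : E (k + 3) :=
  p • EuclideanSpace.single 0 1 + q • EuclideanSpace.single 1 1 + r • EuclideanSpace.single 2 1

lemma inner_vec (p q r : ℝ) (x : E (k + 3)) :
    inner ℝ (vec p q r) x = p * x 0 + q * x 1 + r * x 2 := by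
  simp only [vec, inner_add_left, inner_smul_left, EuclideanSpace.inner_single_left, conj_trivial]
  simp

/-- lift of a point -/
noncomputable def lift (y : ℝ × ℝ × ℝ) : E (k + 3) := vec y.1 y.2.1 y.2.2

lemma val_zero (k : ℕ) : ((0 : Fin (k + 3)) : ℕ) = 0 := rfl
lemma val_one (k : ℕ) : ((1 : Fin (k + 3)) : ℕ) = 1 := by
  change 1 % (k + 3) = 1
  exact Nat.mod_eq_of_lt (by omega)
lemma val_two (k : ℕ) : ((2 : Fin (k + 3)) : ℕ) = 2 := by
  change 2 % (k + 3) = 2
  exact Nat.mod_eq_of_lt (by omega)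

lemma fin_ne (k : ℕ) : (0 : Fin (k + 3)) ≠ 1 ∧ (0 : Fin (k + 3)) ≠ 2 ∧ (1 : Fin (k + 3)) ≠ 2 := by
  have h0 := val_zero k
  have h1 := val_one k
  have h2 := val_two k
  refine ⟨?_, ?_, ?_⟩ <;>
  · intro h
    have := congrArg Fin.val h
    omega

lemma pr_lift (y : ℝ × ℝ × ℝ) : pr (lift y : E (k + 3)) = y := by
  obtain ⟨h01, h02, h12⟩ := fin_ne k
  rw [pr_apply]
  simp [lift, vec, h01, h02, h12, h01.symm, h02.symm, h12.symm]

end

/-- **Q1 is disproved, for every `n ≥ 3`.** -/
theorem result : ∀ n : ℕ, 3 ≤ n → ∃ A : Fin n → Set (E n),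
    (∀ i, (A i).Nonempty) ∧ (∀ i, Convex ℝ (A i)) ∧ (∀ i j, i ≠ j → Disjoint (A i) (A j)) ∧
    ¬ ∃ C : Fin n → Set (E n), (∀ i, Convex ℝ (C i)) ∧ visualHull (⋃ i, A i) = ⋃ i, C i := by
  intro n hn
  obtain ⟨k, rfl⟩ : ∃ k, n = k + 3 := ⟨n - 3, by omega⟩
  refine ⟨A, ?_, ?_, ?_, ?_⟩
  · intro i
    refine ⟨lift (a i), ?_⟩
    change pr (lift (a i)) ∈ K i
    rw [pr_lift]
    exact ⟨0, le_rfl, zero_le_one, by simp⟩
  · intro i
    exact (K_convex i).linear_preimage pr
  · intro i j hij
    rw [Set.disjoint_left]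
    intro x hx hy
    have h1 := g_K_own i _ hx
    have h2 := g_K_other i j (fun h => hij (Fin.ext h)) _ hy
    linarith
  · rintro ⟨C, hC, hH⟩
    -- the points
    let z : Option (Fin (k + 3)) → E (k + 3) := fun o => o.elim 0 (fun i => lift (a i))
    have hz : ∀ o, z o ∈ visualHull (⋃ i, (A i : Set (E (k + 3)))) := by
      intro o
      rw [mem_visualHull_iff]
      intro v hv
      match o with
      | some i =>
        refine ⟨lift (a i), Set.mem_iUnion.mpr ⟨i, ?_⟩, rfl⟩
        change pr (lift (a i)) ∈ K i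
        rw [pr_lift]
        exact ⟨0, le_rfl, zero_le_one, by simp⟩
      | none =>
        change ∃ s ∈ ⋃ i, (A i : Set (E (k + 3))), inner ℝ v s = inner ℝ v 0
        rw [inner_zero_right]
        by_cases hv3 : ∃ l : Fin (k + 3), 3 ≤ (l : ℕ) ∧ v l ≠ 0
        · obtain ⟨l, hl, hvl⟩ := hv3
          have hA0 : (lift (a 0) : E (k + 3)) + (-(inner ℝ v (lift (a 0) : E (k + 3))) / v l) •
              EuclideanSpace.single l 1 ∈ (A 0 : Set (E (k + 3))) := by
            change pr _ ∈ K _
            rw [map_add, pr_lift, map_smul]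
            have : pr (EuclideanSpace.single l 1 : E (k + 3)) = 0 := by
              rw [pr_apply]
              have e0 : (0 : Fin (k + 3)) ≠ l := by
                intro h; rw [← h, val_zero] at hl; omega
              have e1 : (1 : Fin (k + 3)) ≠ l := by
                intro h; rw [← h, val_one] at hl; omega
              have e2 : (2 : Fin (k + 3)) ≠ l := by
                intro h; rw [← h, val_two] at hl; omega
              simp [e0, e1, e2]
            rw [this, smul_zero, add_zero]
            exact ⟨0, le_rfl, zero_le_one, by simp⟩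
          refine ⟨_, Set.mem_iUnion.mpr ⟨0, hA0⟩, ?_⟩
          rw [inner_add_right, inner_smul_right, EuclideanSpace.inner_single_right]
          simp only [conj_trivial, one_mul]
          field_simp
          ring
        · push Not at hv3
          obtain ⟨i, hi, x, hx, hxz⟩ := origin_hit (v 0) (v 1) (v 2)
          have hlt : i < k + 3 := by omega
          refine ⟨lift x, Set.mem_iUnion.mpr ⟨⟨i, hlt⟩, ?_⟩, ?_⟩
          · change pr (lift x) ∈ K _
            rw [pr_lift]
            exact hx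
          · rw [real_inner_comm]
            unfold lift
            rw [inner_vec]
            linarith
    rw [hH] at hz
    have hz' : ∀ o, ∃ l, z o ∈ C l := fun o => Set.mem_iUnion.mp (hz o)
    choose f hf using hz'
    have hcard : Fintype.card (Fin (k + 3)) < Fintype.card (Option (Fin (k + 3))) := by simp
    obtain ⟨o, o', hoo, hfo⟩ := Fintype.exists_ne_map_eq_of_card_lt f hcard
    -- the key separation step
    have key : ∀ (i : Fin (k + 3)) (o' : Option (Fin (k + 3))), some i ≠ o' →
        f (some i) = f o' → False := by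
      intro i o' hio hff
      set v : E (k + 3) := vec (co i).1 (co i).2.1 (co i).2.2 with hv
      have hin : ∀ x : E (k + 3), inner ℝ v x = g i (pr x) := by
        intro x; rw [hv, inner_vec, pr_apply]; rfl
      have h1 : lev i < inner ℝ v (z (some i)) := by
        rw [hin]
        change lev i < g i (pr (lift (a i)))
        rw [pr_lift]
        exact g_own_a i
      have h2 : inner ℝ v (z o') < lev i := by
        match o' with
        | none =>
          change inner ℝ v (0 : E (k + 3)) < lev i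
          rw [inner_zero_right]
          exact lev_pos i
        | some j =>
          rw [hin]
          change g i (pr (lift (a j))) < lev i
          rw [pr_lift]
          exact g_other_a i j (fun h => hio (by rw [Fin.ext h]))
      have hv0 : v ≠ 0 := by
        intro h0
        rw [h0] at h1 h2
        simp only [inner_zero_left] at h1 h2
        linarith
      set P := inner ℝ v (z (some i)) with hP
      set Q := inner ℝ v (z o') with hQ
      have hPQ : 0 < P - Q := by linarith
      set t : ℝ := (lev i - Q) / (P - Q) with ht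
      have ht0 : 0 ≤ t := div_nonneg (by linarith) hPQ.le
      have ht1 : t ≤ 1 := by rw [ht, div_le_one hPQ]; linarith
      have hy : t • z (some i) + (1 - t) • z o' ∈ C (f o') := by
        refine hC (f o') (hff ▸ hf (some i)) (hf o') ht0 (by linarith) (by ring)
      have hyH : t • z (some i) + (1 - t) • z o' ∈ visualHull (⋃ i, (A i : Set (E (k + 3)))) := by
        rw [hH]; exact Set.mem_iUnion.mpr ⟨_, hy⟩
      rw [mem_visualHull_iff] at hyH
      obtain ⟨s, hs, hsy⟩ := hyH v hv0
      rw [inner_add_right, inner_smul_right, inner_smul_right, ← hP, ← hQ] at hsy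
      have hval : t * P + (1 - t) * Q = lev i := by
        rw [ht]; field_simp; ring
      rw [hval, hin] at hsy
      obtain ⟨j, hj⟩ := Set.mem_iUnion.mp hs
      by_cases hij : i = j
      · subst hij
        have := g_K_own i _ hj
        linarith
      · have := g_K_other i j (fun h => hij (Fin.ext h)) _ hj
        linarith
    match o, o', hoo, hfo with
    | none, none, h, _ => exact h rfl
    | some i, o', h, h' => exact key i o' h h'
    | none, some i, h, h' => exact key i none (Ne.symm h) h'.symm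

end Pool.Agent.Results.MP_d086ed_co.VisualHullNotUnion
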